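import Pool.Agent.Q5.WL.Val
import Pool.Agent.Q5.WL.Fib
import Pool.Agent.Q5.WL.Cyc

/-!
# The analytic generalized Nagao conjecture: from thin families of number fields to all

`𝒳 → 𝒴` is a fibration over a number field `K`, given over an open part of the base by equations, as in
`Pool.Agent.W353.FB.Defs`; the fibres over the other points of `𝒴` change the series of the conjecture by a
function analytic near `s = 1`.  `B` is the abelian variety of the question, given as a projective variety,
and `V` is the space `(P_X(K̄(𝒴)) / τ B(K̄)) ⊗ ℚ` with the action `ρ` of the absolute Galois group of `K`;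
the theorem holds for every finite dimensional representation `V`.  For every finite extension `F` of `K`
the rank of `P_X(F(𝒴)) / τ B(F)` is the dimension of the space of the invariants of the absolute Galois
group of `F`.
-/

set_option autoImplicit false

namespace Pool.Agent.Q5.WS.An

open NumberField IsDedekindDomain Filter Topology Polynomial
open Pool.Agent.W353.FB (Fibration nagaoValue)
open Pool.Agent.Y707.PR (HasResidue)

/-- The dimension of the space of the vectors of `V` fixed by the absolute Galois group of `F`, that is,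
by all automorphisms of the algebraic closure of `K` that are trivial on the image of `F`. -/
noncomputable def rank {K : Type} [Field K] [NumberField K] {V : Type} [AddCommGroup V] [Module ℚ V]
    (ρ : Representation ℚ Gal(AlgebraicClosure K/K) V) (F : Type) [Field F] [NumberField F]
    [Algebra K F] : ℕ :=
  Module.finrank ℚ (Pool.Agent.Q5.VL.fixV ρ (IsAlgClosed.lift : F →ₐ[K] AlgebraicClosure K))

/-- The value `-𝔄*_v` of the fibration and of `B` at the prime `v` of `F`; it is `0` at the primes at which a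
trace of the definition does not exist.  By the theorem of Deligne these are finitely many primes. -/
noncomputable def nagaoAt {K : Type} [Field K] [NumberField K] (f : Fibration K) {n : ℕ}
    (B : Set (MvPolynomial (Fin n) (𝓞 K))) (g : ℕ) {F : Type} [Field F] [NumberField F] [Algebra K F]
    (v : HeightOneSpectrum (𝓞 F)) : ℝ :=
  Pool.Agent.Q5.WL.value (nagaoValue f B g) v

/-- The analytic generalized Nagao conjecture over `F`: for every finite set `R` of primes of `F` the series
`-∑ 𝔄*_v (log q_v) q_v^{-s}` over the primes `v ∉ R` converges absolutely for `Re s > 1`, and it has a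
meromorphic continuation to a neighbourhood of `1` with a simple pole (or none), with the residue
`rank P_X(F(𝒴)) / τ B(F)`. -/
def Nagao {K : Type} [Field K] [NumberField K] (f : Fibration K) {n : ℕ}
    (B : Set (MvPolynomial (Fin n) (𝓞 K))) (g : ℕ) {V : Type} [AddCommGroup V] [Module ℚ V]
    (ρ : Representation ℚ Gal(AlgebraicClosure K/K) V) (F : Type) [Field F] [NumberField F]
    [Algebra K F] : Prop :=
  ∀ R : Finset (HeightOneSpectrum (𝓞 F)), HasResidue R (nagaoAt f B g) 1 (rank ρ F)

/-- A family of finite extensions of `K` inside the algebraic closure is wide if it is closed under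
passing to larger finite extensions, and every automorphism of the algebraic closure over `K` fixes all
elements of some member of the family. -/
def Wide (K : Type) [Field K] (𝓕 : Set (IntermediateField K (AlgebraicClosure K))) : Prop :=
  (∀ F ∈ 𝓕, FiniteDimensional K F) ∧
  (∀ F ∈ 𝓕, ∀ F' : IntermediateField K (AlgebraicClosure K), FiniteDimensional K F' → F ≤ F' →
    F' ∈ 𝓕) ∧
  ∀ σ : AlgebraicClosure K ≃ₐ[K] AlgebraicClosure K, ∃ F ∈ 𝓕, ∀ x ∈ F, σ x = x

/-- `F` is generated over `K` by finitely many `p`-th roots of positive integers all of whose prime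
factors belong to `T`, and `p ^ k` divides the degree of `F/K`. -/
def TestField (T : Set ℕ) (p k : ℕ) (K F : Type) [Field K] [Field F] [Algebra K F] : Prop :=
  (∃ S : Set F, S.Finite ∧
    (∀ x ∈ S, ∃ c : ℕ, c ≠ 0 ∧ (∀ l : ℕ, l.Prime → l ∣ c → l ∈ T) ∧ x ^ p = (c : F)) ∧
    IntermediateField.adjoin K S = ⊤) ∧
  p ^ k ∣ Module.finrank K F

/-- The law for the cyclic subgroups of the Galois group of a finite Galois extension `L/K`. -/
def CyclicLaw : Prop :=
  ∀ (K : Type) [Field K] [NumberField K] (f : Fibration K) (n : ℕ)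
    (B : Set (MvPolynomial (Fin n) (𝓞 K))) (g : ℕ) (V : Type) [AddCommGroup V] [Module ℚ V]
    [FiniteDimensional ℚ V] (ρ : Representation ℚ Gal(AlgebraicClosure K/K) V),
    ∀ L : IntermediateField K (AlgebraicClosure K), FiniteDimensional K L → Normal K L →
      (∀ (τ : L ≃ₐ[K] L) [NumberField (IntermediateField.fixedField (Subgroup.zpowers τ))],
        Nagao f B g ρ (IntermediateField.fixedField (Subgroup.zpowers τ))) →
      Nagao f B g ρ K

/-- The law for wide families. -/
def WideLaw : Prop :=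
  ∀ (K : Type) [Field K] [NumberField K] (f : Fibration K) (n : ℕ)
    (B : Set (MvPolynomial (Fin n) (𝓞 K))) (g : ℕ) (V : Type) [AddCommGroup V] [Module ℚ V]
    [FiniteDimensional ℚ V] (ρ : Representation ℚ Gal(AlgebraicClosure K/K) V),
    ∀ 𝓕 : Set (IntermediateField K (AlgebraicClosure K)), Wide K 𝓕 →
      (∀ F ∈ 𝓕, ∀ [NumberField F], Nagao f B g ρ F) → Nagao f B g ρ K

/-- The law for the test fields of `p`, `k` and `T`. -/
def TestLaw : Prop :=
  ∀ (K : Type) [Field K] [NumberField K] (f : Fibration K) (n : ℕ)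
    (B : Set (MvPolynomial (Fin n) (𝓞 K))) (g : ℕ) (V : Type) [AddCommGroup V] [Module ℚ V]
    [FiniteDimensional ℚ V] (ρ : Representation ℚ Gal(AlgebraicClosure K/K) V),
    ∀ (p k : ℕ) (T : Set ℕ), p.Prime → (∀ l ∈ T, l.Prime) → T.Infinite →
      (∀ (F : Type) [Field F] [NumberField F] [Algebra K F], TestField T p k K F →
        Nagao f B g ρ F) → Nagao f B g ρ K

/-- The law for the degrees. -/
def DegreeLaw : Prop :=
  ∀ (K : Type) [Field K] [NumberField K] (f : Fibration K) (n : ℕ)
    (B : Set (MvPolynomial (Fin n) (𝓞 K))) (g : ℕ) (V : Type) [AddCommGroup V] [Module ℚ V]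
    [FiniteDimensional ℚ V] (ρ : Representation ℚ Gal(AlgebraicClosure K/K) V),
    ∀ M : ℕ, 0 < M →
      (∀ (F : Type) [Field F] [NumberField F] [Algebra K F], M ∣ Module.finrank K F →
        Nagao f B g ρ F) →
      ∀ (F : Type) [Field F] [NumberField F] [Algebra K F], Nagao f B g ρ F

/-- Wide families. -/
def WideExamples : Prop :=
  ∀ (K : Type) [Field K] [NumberField K],
    (∀ 𝓕 𝓖 : Set (IntermediateField K (AlgebraicClosure K)), Wide K 𝓕 → Wide K 𝓖 →
      Wide K (𝓕 ∩ 𝓖)) ∧
    ∀ M : ℕ, 0 < M → Wide K {F | FiniteDimensional K F ∧ M ∣ Module.finrank K F}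

section
variable {K : Type} [Field K] [NumberField K] {f : Fibration K} {n : ℕ}
  {B : Set (MvPolynomial (Fin n) (𝓞 K))} {g : ℕ} {V : Type} [AddCommGroup V] [Module ℚ V]
  {ρ : Representation ℚ Gal(AlgebraicClosure K/K) V} {F : Type} [Field F] [NumberField F]
  [Algebra K F]

theorem nagao_iff : Nagao f B g ρ F ↔ ∀ R : Finset (HeightOneSpectrum (𝓞 F)),
    HasResidue R (Pool.Agent.Q5.WL.value (nagaoValue f B g)) 1 (Pool.Agent.Q5.VL.rk ρ F) := Iff.rfl

/-- the property of the fields -/
def QT (f : Fibration K) (B : Set (MvPolynomial (Fin n) (𝓞 K))) (g : ℕ)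
    (ρ : Representation ℚ Gal(AlgebraicClosure K/K) V) (F : Type) [Field F] [NumberField F]
    [Algebra K F] (t : ℤ) : Prop :=
  t ≠ 0 → ∀ R : Finset (HeightOneSpectrum (𝓞 F)),
    HasResidue R (Pool.Agent.Q5.WL.value (nagaoValue f B g)) 1 (Pool.Agent.Q5.VL.rk ρ F)

theorem isLaw_QT [FiniteDimensional ℚ V] : Pool.Agent.Q5.VL.IsLaw (QT f B g ρ) :=
  Pool.Agent.Q5.WL.law_value_res (Pool.Agent.Q5.WL.inv_nagao f B g) 1 (fun _ _ => inferInstance)

end

theorem cyclic : CyclicLaw := by
  intro K _ _ f n B g V _ _ _ ρ L hfd hnor h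
  rw [nagao_iff]
  refine Pool.Agent.Q5.WL.cyclic_law L (isLaw_QT (f := f) (B := B) (g := g) (ρ := ρ)) 1
    (fun τ _ _ => nagao_iff.1 (h τ)) ?_
  rw [mul_one]
  exact_mod_cast (Nat.card_pos (α := L ≃ₐ[K] L)).ne'

theorem wide : WideLaw := by
  intro K _ _ f n B g V _ _ _ ρ 𝓕 hF h
  obtain ⟨t, ht, hw⟩ := Pool.Agent.Q5.VL.wide_law (K := K) hF
  rw [nagao_iff]
  refine hw _ (isLaw_QT (f := f) (B := B) (g := g) (ρ := ρ)) 1
    (fun F hF' _ _ => nagao_iff.1 (h F hF')) ?_
  rw [mul_one]
  exact_mod_cast ht.ne'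

theorem test : TestLaw := by
  intro K _ _ f n B g V _ _ _ ρ p k T hp hT hinf h
  have hpf : Fact p.Prime := ⟨hp⟩
  rw [nagao_iff]
  refine Pool.Agent.Q5.VL.gen_radical_law' (isLaw_QT (f := f) (B := B) (g := g) (ρ := ρ)) p hT hinf k
    (fun F _ _ _ hr hd _ => nagao_iff.1 (h F ⟨hr, hd⟩)) ?_
  exact_mod_cast pow_ne_zero k hp.ne_zero

theorem degree : DegreeLaw := by
  intro K _ _ f n B g V _ _ _ ρ M hM h F _ _ _
  rw [nagao_iff]
  refine Pool.Agent.Q5.VL.gen_power_law' (isLaw_QT (f := f) (B := B) (g := g) (ρ := ρ)) (M := M)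
    (fun F _ _ _ hF _ => nagao_iff.1 (h F hF)) F ?_
  exact_mod_cast (Nat.div_pos (Nat.le_of_dvd hM (Nat.gcd_dvd_left _ _))
    (Nat.gcd_pos_of_pos_left _ hM)).ne'

theorem wideEx : WideExamples :=
  fun K _ _ => ⟨fun 𝓕 𝓖 h1 h2 => Pool.Agent.Q5.HR.Wide.inter h1 h2, fun M hM =>
    Pool.Agent.Q5.HR.wide_deg hM⟩

end Pool.Agent.Q5.WS.An
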